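import Pool.Agent.H61.FA.Def

/-!
# An algebraic graph without `H₀` (MP_eb1b1c_co): two vertices with two adjacent common neighbours have exactly two
common neighbours
-/

set_option autoImplicit false

namespace Pool.Agent.H61.FA

variable {K : Type} [CommRing K] [IsDomain K]

/-- two vertices of different colours have at most one common neighbour of each colour -/
theorem common_unique {u v : Vx K} {d : K} {a b a' b' : K × K} (huv : u.1 ≠ v.1) (hu : u.1 ≠ d)
    (hv : v.1 ≠ d) (h : nb u d a = nb v d b) (h' : nb u d a' = nb v d b') : a = a' := by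
  have h1 := congrArg Prod.snd h
  have h1' := congrArg Prod.snd h'
  change u.2 + w u.1 a - w d (a + f u.1 d) = v.2 + w v.1 b - w d (b + f v.1 d) at h1
  change u.2 + w u.1 a' - w d (a' + f u.1 d) = v.2 + w v.1 b' - w d (b' + f v.1 d) at h1'
  have h3 : w u.1 (a - a') + w v.1 (b' - b) + w d (b - b' - (a - a')) = 0 := by
    simp only [w_add, w_sub] at h1 h1' ⊢
    rw [← sub_eq_zero] at h1 h1'
    have h4 := congrArg₂ (fun x y => x - y) h1 h1'
    simp only [sub_zero] at h4
    rw [← h4]
    abel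
  have h4 : (a - a') + (b' - b) + (b - b' - (a - a')) = 0 := by abel
  exact sub_eq_zero.1 (indep huv hu hv h4 h3).1

omit [IsDomain K] in
theorem theta_snd (a b e : K) :
    (f e a + f a b + f b e).2 = (a + b + e) * (f e a + f a b + f b e).1 := by
  simp only [f, Prod.mk_add_mk]
  ring

theorem theta_ne {a b e : K} (hab : a ≠ b) (hea : e ≠ a) (heb : e ≠ b) :
    (f e a + f a b + f b e).1 ≠ 0 := by
  have h : (f e a + f a b + f b e).1 = (e - a) * (a - b) * (b - e) := by
    simp only [f, Prod.mk_add_mk]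
    ring
  rw [h]
  exact mul_ne_zero (mul_ne_zero (sub_ne_zero.2 hea) (sub_ne_zero.2 hab))
    (sub_ne_zero.2 heb.symm)

/-- if `x`, `y` are two adjacent common neighbours of `u` and `v`, then there are no others -/
theorem codegree {u v x y z : Vx K} (huv : u ≠ v) (hux : Adj x u) (hvx : Adj x v) (huy : Adj y u)
    (hvy : Adj y v) (hxy : Adj x y) (huz : Adj u z) (hvz : Adj v z) : z = x ∨ z = y := by
  -- labels at `x`
  obtain ⟨hy1, α, hy⟩ := hxy
  obtain ⟨hu1, β, hu⟩ := hux
  obtain ⟨hv1, γ, hv⟩ := hvx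
  obtain ⟨hz1, δ, hz⟩ := huz
  obtain ⟨hz1', ε, hz'⟩ := hvz
  obtain ⟨a, ha⟩ : ∃ a, a = u.1 := ⟨_, rfl⟩
  obtain ⟨b, hb⟩ : ∃ b, b = v.1 := ⟨_, rfl⟩
  obtain ⟨e, he⟩ : ∃ e, e = y.1 := ⟨_, rfl⟩
  obtain ⟨d, hd⟩ : ∃ d, d = z.1 := ⟨_, rfl⟩
  obtain ⟨c, hc⟩ : ∃ c, c = x.1 := ⟨_, rfl⟩
  rw [← ha, ← hc] at hu1
  rw [← hb, ← hc] at hv1
  rw [← he, ← hc] at hy1
  rw [← ha, ← hd] at hz1
  rw [← hb, ← hd] at hz1'
  rw [← ha] at hu
  rw [← hb] at hv
  rw [← he] at hy
  rw [← hd] at hz hz'
  have hβ : β = α + f e a := by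
    rw [hu, hy] at huy
    exact rule (by rw [← hc]; exact hy1) (by rw [← hc]; exact hu1) huy
  have hγ : γ = α + f e b := by
    rw [hv, hy] at hvy
    exact rule (by rw [← hc]; exact hy1) (by rw [← hc]; exact hv1) hvy
  have hea : e ≠ a := by
    have := huy.1
    rwa [← he, ← ha] at this
  have heb : e ≠ b := by
    have := hvy.1
    rwa [← he, ← hb] at this
  have hab : a ≠ b := by
    intro h
    apply huv
    rw [hu, hv, hβ, hγ, h]
  by_cases hdc : d = c
  · left
    have h1 := nb_back x a β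
    have h2 := nb_back x b γ
    rw [← hu] at h1
    rw [← hv] at h2
    have h3 := common_unique (d := x.1) (by rw [← ha, ← hb]; exact hab)
      (by rw [← ha, ← hc]; exact hu1.symm) (by rw [← hb, ← hc]; exact hv1.symm)
      (h1.trans h2.symm) (by rw [← hc, ← hdc]; exact hz.symm.trans hz')
    rw [hz, hdc, hc, ← h3]
    exact h1
  by_cases hde : d = e
  · right
    have h1 := nb_tri x a e β
    have h2 := nb_tri x b e γ
    have e1 : (α + f e a) + f a e = α := by
      rw [f_swap a e]
      abel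
    have e2 : (α + f e b) + f b e = α := by
      rw [f_swap b e]
      abel
    rw [← hu, hβ, e1, ← hy] at h1
    rw [← hv, hγ, e2, ← hy] at h2
    have h3 := common_unique (d := e) (by rw [← ha, ← hb]; exact hab)
      (by rw [← ha]; exact hea.symm) (by rw [← hb]; exact heb.symm)
      (h1.trans h2.symm) (by rw [← hde]; exact hz.symm.trans hz')
    rw [hz, hde, ← h3]
    exact h1
  exfalso
  have h1 := congrArg Prod.snd (hz.symm.trans hz')
  change u.2 + w u.1 δ - w d (δ + f u.1 d) = v.2 + w v.1 ε - w d (ε + f v.1 d) at h1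
  rw [← ha, ← hb] at h1
  have hu2 : u.2 = x.2 + w c β - w a (β + f c a) := by
    rw [hc]
    exact congrArg Prod.snd hu
  have hv2 : v.2 = x.2 + w c γ - w b (γ + f c b) := by
    rw [hc]
    exact congrArg Prod.snd hv
  rw [hu2, hv2, hβ, hγ] at h1
  have i1 := w_cyc a c b
  have i2 := w_cyc b d a
  have h3 : w c (f e a + f a b + f b e) + w a (δ - (α + f e a) - f c a - f c b - f b d) +
      w b ((α + f e b) + f c b - ε - f a c - f d a) +
      w d (ε + f b d - δ - f a d - f a b) = 0 := by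
    rw [← sub_eq_zero] at h1
    simp only [w_add, w_sub] at h1 ⊢
    have h4 := congrArg₂ (fun x y => x - y) (congrArg₂ (fun x y => x - y) h1 i1) i2
    simp only [sub_zero] at h4
    rw [← h4, f_swap e b, f_swap a b, w_neg, w_neg]
    abel
  have h4 : (f e a + f a b + f b e) + (δ - (α + f e a) - f c a - f c b - f b d) +
      ((α + f e b) + f c b - ε - f a c - f d a) +
      (ε + f b d - δ - f a d - f a b) = 0 := by
    rw [f_swap e b, f_swap c a, f_swap a d]
    abel
  have h5 := four hu1 hv1 (Ne.symm hdc) h4 h3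
  rw [theta_snd] at h5
  have h6 : (e - d) * (f e a + f a b + f b e).1 = 0 := by linear_combination h5
  exact hde (sub_eq_zero.1 ((mul_eq_zero.1 h6).resolve_right (theta_ne hab hea heb))).symm

/-- there is no clique with four vertices -/
theorem no_K4 {x y u v : Vx K} (hux : Adj x u) (hvx : Adj x v) (huy : Adj y u) (hvy : Adj y v)
    (hxy : Adj x y) (huv : Adj u v) : False := by
  -- labels at `x`
  obtain ⟨hy1, α, hy⟩ := hxy
  obtain ⟨hu1, β, hu⟩ := hux
  obtain ⟨hv1, γ, hv⟩ := hvx
  have h1 : β = α + f y.1 u.1 := by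
    rw [hu, hy] at huy
    exact rule hy1 hu1 huy
  have h2 : γ = α + f y.1 v.1 := by
    rw [hv, hy] at hvy
    exact rule hy1 hv1 hvy
  have h3 : γ = β + f u.1 v.1 := by
    have h := huv
    rw [hu, hv] at h
    exact rule hu1 hv1 h
  have h4 : f y.1 u.1 + f u.1 v.1 + f v.1 y.1 = 0 := by
    rw [h1, h2, add_assoc, add_left_cancel_iff] at h3
    rw [← h3, f_swap y.1 v.1]
    abel
  refine theta_ne huv.1 huy.1 hvy.1 ?_
  rw [h4]
  rfl

end Pool.Agent.H61.FA
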