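import Pool.Agent.H61.FA.Link
import Pool.Agent.H61.FA.Free

/-!
# The algebraic graph arrows `(3, 3)`
-/

set_option autoImplicit false

namespace Pool.Agent.H61.FA

open Finset

variable {K : Type} [Field K] [Fintype K]

/-- a vertex with two colours and a label -/
abbrev Tu (K : Type) : Type := Vx K × K × K × (K × K)

/-- the three colours are different -/
def P (t : Tu K) : Prop := t.1.1 ≠ t.2.1 ∧ t.1.1 ≠ t.2.2.1 ∧ t.2.1 ≠ t.2.2.1

/-- rotation of an ordered triangle -/
def Φ (t : Tu K) : Tu K :=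
  (nb t.1 t.2.1 t.2.2.2, t.1.1, t.2.2.1, t.2.2.2 + f t.1.1 t.2.1)

/-- exchange of the neighbours -/
def Ψ (t : Tu K) : Tu K := (t.1, t.2.2.1, t.2.1, t.2.2.2 + f t.2.1 t.2.2.1)

omit [Fintype K] in
theorem Φ_inv : Function.Involutive (Φ (K := K)) := by
  rintro ⟨u, j, k, a⟩
  refine Prod.ext (nb_back u j a) (Prod.ext rfl (Prod.ext rfl ?_))
  change a + f u.1 j + f j u.1 = a
  rw [f_swap u.1 j]
  abel

omit [Fintype K] in
theorem Ψ_inv : Function.Involutive (Ψ (K := K)) := by
  rintro ⟨u, j, k, a⟩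
  refine Prod.ext rfl (Prod.ext rfl (Prod.ext rfl ?_))
  change a + f j k + f k j = a
  rw [f_swap j k]
  abel

omit [Fintype K] in
theorem P_Φ (t : Tu K) : P (Φ t) ↔ P t := by
  obtain ⟨u, j, k, a⟩ := t
  change (j ≠ u.1 ∧ j ≠ k ∧ u.1 ≠ k) ↔ (u.1 ≠ j ∧ u.1 ≠ k ∧ j ≠ k)
  constructor
  · rintro ⟨h1, h2, h3⟩
    exact ⟨h1.symm, h3, h2⟩
  · rintro ⟨h1, h2, h3⟩
    exact ⟨h1.symm, h3, h2⟩

omit [Fintype K] in
theorem P_Ψ (t : Tu K) : P (Ψ t) ↔ P t := by
  obtain ⟨u, j, k, a⟩ := t
  change (u.1 ≠ k ∧ u.1 ≠ j ∧ k ≠ j) ↔ (u.1 ≠ j ∧ u.1 ≠ k ∧ j ≠ k)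
  constructor
  · rintro ⟨h1, h2, h3⟩
    exact ⟨h2, h1, h3.symm⟩
  · rintro ⟨h1, h2, h3⟩
    exact ⟨h2, h1, h3.symm⟩

open scoped Classical in
theorem sum_P : ∑ t : Tu K, (if P t then (1 : ℝ) else 0) =
    Fintype.card (Vx K) * ((qq K - 1) * (qq K - 2) * (qq K * qq K)) := by
  have h0 : ∀ i j : K, i ≠ j → (∑ k : K, if i ≠ k ∧ j ≠ k then (1 : ℝ) else 0) = qq K - 2 := by
    intro i j hij
    rw [← sum_filter, sum_const, nsmul_eq_mul, mul_one]
    have h1 : (univ.filter fun k : K => i ≠ k ∧ j ≠ k) = (univ.erase i).erase j := by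
      ext k
      simp only [mem_filter, mem_univ, true_and, mem_erase, and_true]
      constructor
      · rintro ⟨h2, h3⟩
        exact ⟨h3.symm, h2.symm⟩
      · rintro ⟨h2, h3⟩
        exact ⟨h3.symm, h2.symm⟩
    have h2 : j ∈ (univ : Finset K).erase i := mem_erase.2 ⟨hij.symm, mem_univ _⟩
    rw [h1, card_erase_of_mem h2, card_erase_of_mem (mem_univ _), card_univ]
    have h3 : 2 ≤ Fintype.card K := by
      have := card_le_univ ({i, j} : Finset K)
      rwa [card_pair hij] at this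
    rw [Nat.cast_sub (by omega), Nat.cast_sub (by omega)]
    unfold qq
    push_cast
    ring
  have h1 : ∀ i : K, (∑ j : K, ∑ k : K, if i ≠ j ∧ i ≠ k ∧ j ≠ k then (1 : ℝ) else 0) =
      (qq K - 1) * (qq K - 2) := by
    intro i
    have h2 : ∀ j : K, (∑ k : K, if i ≠ j ∧ i ≠ k ∧ j ≠ k then (1 : ℝ) else 0) =
        if i ≠ j then qq K - 2 else 0 := by
      intro j
      by_cases hij : i = j
      · simp [hij]
      · rw [if_pos hij, ← h0 i j hij]
        refine Fintype.sum_congr _ _ fun k => ?_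
        congr 1
        simp only [eq_iff_iff]
        exact ⟨fun h => h.2, fun h => ⟨hij, h⟩⟩
    rw [Fintype.sum_congr _ _ h2, ← sum_filter, sum_const, nsmul_eq_mul]
    have h3 : (univ.filter fun j : K => i ≠ j) = univ.erase i := by
      ext j
      simp only [mem_filter, mem_univ, true_and, mem_erase, and_true]
      exact ne_comm
    rw [h3, card_erase_of_mem (mem_univ _), card_univ, Nat.cast_sub Fintype.card_pos]
    unfold qq
    push_cast
    ring
  calc ∑ t : Tu K, (if P t then (1 : ℝ) else 0)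
      = ∑ u : Vx K, ∑ j : K, ∑ k : K, ∑ _a : K × K,
          if u.1 ≠ j ∧ u.1 ≠ k ∧ j ≠ k then (1 : ℝ) else 0 := by
        rw [Fintype.sum_prod_type]
        refine Fintype.sum_congr _ _ fun u => ?_
        rw [Fintype.sum_prod_type]
        refine Fintype.sum_congr _ _ fun j => ?_
        rw [Fintype.sum_prod_type]
        exact Fintype.sum_congr _ _ fun k => Fintype.sum_congr _ _ fun a =>
          if_congr Iff.rfl rfl rfl
    _ = ∑ _u : Vx K, (qq K - 1) * (qq K - 2) * (qq K * qq K) := by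
        refine Fintype.sum_congr _ _ fun u => ?_
        rw [← h1 u.1, sum_mul]
        refine Fintype.sum_congr _ _ fun j => ?_
        rw [sum_mul]
        refine Fintype.sum_congr _ _ fun k => ?_
        rw [sum_const, card_univ, Fintype.card_prod, nsmul_eq_mul, Nat.cast_mul]
        unfold qq
        ring
    _ = _ := by
        rw [sum_const, card_univ, nsmul_eq_mul]

/-- the value of a colouring -/
noncomputable def yy (c : Vx K → Vx K → Bool) (u v : Vx K) : ℝ := if c u v = true then 1 else -1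

omit [Field K] [Fintype K] in
theorem yy_sq (c : Vx K → Vx K → Bool) (u v : Vx K) : yy c u v ^ 2 = 1 := by
  unfold yy
  split_ifs <;> norm_num

theorem arrows_aux [CharP K 2] {χ : K → ℝ} (h : IsChi χ) {σ κ : ℝ} (hσ0 : 0 ≤ σ)
    (hσ : 2 * qq K * (qq K - 1) ^ 2 ≤ σ ^ 2) (h4 : 4 * qq K ≤ qq K + σ) (hκ : 0 ≤ κ)
    (hκσ : qq K + σ ≤ κ ^ 2) (hκq : 3 * (κ + 1) < qq K - 2) (c : Vx K → Vx K → Bool)
    (hc : ∀ x y : Vx K, Adj x y → c x y = c y x) :
    ∃ x y z : Vx K, Adj x y ∧ Adj y z ∧ Adj x z ∧ c x y = c y z ∧ c y z = c x z := by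
  classical
  by_contra hcon
  push Not at hcon
  -- the terms
  let t1 : Tu K → ℝ := fun t => yy c t.1 (nb t.1 t.2.1 t.2.2.2) *
    yy c t.1 (nb t.1 t.2.2.1 (t.2.2.2 + f t.2.1 t.2.2.1))
  let G : Tu K → ℝ := fun t => if P t then t1 t else 0
  have hthree : ∀ t : Tu K, G t + G (Φ t) + G (Φ (Ψ t)) = -(if P t then (1 : ℝ) else 0) := by
    rintro ⟨u, j, k, a⟩
    by_cases hP : P ((u, j, k, a) : Tu K)
    · have hP1 : P (Φ ((u, j, k, a) : Tu K)) := (P_Φ _).2 hP
      have hP2 : P (Φ (Ψ ((u, j, k, a) : Tu K))) := (P_Φ _).2 ((P_Ψ _).2 hP)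
      have hP' : u.1 ≠ j ∧ u.1 ≠ k ∧ j ≠ k := hP
      obtain ⟨hj, hk, hjk⟩ := hP'
      obtain ⟨v, hv⟩ : ∃ v, v = nb u j a := ⟨_, rfl⟩
      obtain ⟨w', hw⟩ : ∃ w', w' = nb u k (a + f j k) := ⟨_, rfl⟩
      have huv : Adj u v := by
        rw [hv]
        exact adj_nb u j a hj
      have huw : Adj u w' := by
        rw [hw]
        exact adj_nb u k _ hk
      have hvw : Adj v w' := by
        rw [hv, hw]
        exact (adj_iff hj hk).2 ⟨hjk, rfl⟩
      have e1 : t1 (u, j, k, a) = yy c u v * yy c u w' := by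
        rw [hv, hw]
      have e2 : t1 (Φ (u, j, k, a)) = yy c v u * yy c v w' := by
        change yy c (nb u j a) (nb (nb u j a) u.1 (a + f u.1 j)) *
          yy c (nb u j a) (nb (nb u j a) k (a + f u.1 j + f u.1 k)) = _
        rw [nb_back, nb_tri, ← hv, ← hw]
      have e3 : t1 (Φ (Ψ (u, j, k, a))) = yy c w' u * yy c w' v := by
        change yy c (nb u k (a + f j k)) (nb (nb u k (a + f j k)) u.1 (a + f j k + f u.1 k)) *
          yy c (nb u k (a + f j k)) (nb (nb u k (a + f j k)) j (a + f j k + f u.1 k + f u.1 j)) = _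
        have e4 : a + f j k + f k j = a := by
          rw [f_swap j k]
          abel
        rw [nb_back, nb_tri, e4, ← hv, ← hw]
      simp only [G, if_pos hP, if_pos hP1, if_pos hP2, e1, e2, e3]
      have s1 := hc u v huv
      have s2 := hc u w' huw
      have s3 := hc v w' hvw
      have hn := hcon u v w' huv hvw huw
      unfold yy
      rw [← s1, ← s2, ← s3]
      rcases hb1 : c u v with _ | _ <;> rcases hb2 : c v w' with _ | _ <;>
        rcases hb3 : c u w' with _ | _ <;> simp_all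
    · have hP1 : ¬ P (Φ ((u, j, k, a) : Tu K)) := fun h5 => hP ((P_Φ _).1 h5)
      have hP2 : ¬ P (Φ (Ψ ((u, j, k, a) : Tu K))) := fun h5 => hP ((P_Ψ _).1 ((P_Φ _).1 h5))
      simp only [G, if_neg hP, if_neg hP1, if_neg hP2]
      norm_num
  have hΦ : ∑ t, G (Φ t) = ∑ t, G t := Equiv.sum_comp (Φ_inv (K := K)).toPerm G
  have hΨ : ∑ t, G (Φ (Ψ t)) = ∑ t, G (Φ t) :=
    Equiv.sum_comp (Ψ_inv (K := K)).toPerm fun t => G (Φ t)
  have hsum : 3 * ∑ t, G t =
      -(Fintype.card (Vx K) * ((qq K - 1) * (qq K - 2) * (qq K * qq K))) := by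
    rw [← sum_P, ← sum_neg_distrib, ← Fintype.sum_congr _ _ hthree, sum_add_distrib,
      sum_add_distrib, hΨ, hΦ]
    ring
  -- the lower bound at each vertex
  have hlow : ∀ u : Vx K, -((κ + 1) * ((qq K - 1) * (qq K * qq K))) ≤
      ∑ j, ∑ k, ∑ a, G (u, j, k, a) := by
    intro u
    let g : K → K × K → ℝ := fun j a => if u.1 = j then 0 else yy c u (nb u j a)
    have hg : ∑ j, ∑ a, g j a ^ 2 = (qq K - 1) * (qq K * qq K) := by
      have h5 : ∀ j, ∑ a, g j a ^ 2 = if u.1 = j then 0 else qq K * qq K := by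
        intro j
        by_cases hj : u.1 = j
        · simp [g, hj]
        · simp only [g, if_neg hj, yy_sq]
          rw [sum_const, card_univ, Fintype.card_prod, nsmul_eq_mul, mul_one, Nat.cast_mul]
          rfl
      rw [Fintype.sum_congr _ _ h5]
      have h6 : ∀ j : K, (if u.1 = j then (0 : ℝ) else qq K * qq K) =
          qq K * qq K - if u.1 = j then qq K * qq K else 0 := by
        intro j
        split_ifs <;> ring
      rw [Fintype.sum_congr _ _ h6, sum_sub_distrib, sum_const, card_univ, nsmul_eq_mul,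
        sum_ite_eq univ u.1 fun _ => qq K * qq K, if_pos (mem_univ _)]
      unfold qq
      ring
    have h5 : ∀ j k, ∑ a, g j a * g k (a + f j k) =
        ∑ a, G (u, j, k, a) + if j = k then ∑ a, g j a ^ 2 else 0 := by
      intro j k
      by_cases hjk : j = k
      · subst hjk
        rw [if_pos rfl]
        have h6 : ∀ a, G (u, j, j, a) = 0 := by
          intro a
          have h7 : ¬ P ((u, j, j, a) : Tu K) := fun h7 => h7.2.2 rfl
          simp only [G, if_neg h7]
        rw [Fintype.sum_congr _ _ h6, sum_const_zero, zero_add]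
        refine Fintype.sum_congr _ _ fun a => ?_
        rw [f_self, add_zero]
        ring
      · rw [if_neg hjk, add_zero]
        refine Fintype.sum_congr _ _ fun a => ?_
        by_cases hj : u.1 = j
        · have h7 : ¬ P ((u, j, k, a) : Tu K) := fun h7 => h7.1 hj
          simp only [G, g, if_neg h7, if_pos hj, zero_mul]
        · by_cases hk : u.1 = k
          · have h7 : ¬ P ((u, j, k, a) : Tu K) := fun h7 => h7.2.1 hk
            simp only [G, g, if_neg h7, if_pos hk, mul_zero]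
          · have h7 : P ((u, j, k, a) : Tu K) := ⟨hj, hk, hjk⟩
            simp only [G, g, if_pos h7, if_neg hj, if_neg hk, t1]
    have h6 := link h hσ0 hσ h4 hκ hκσ g
    have h7 : ∑ j, ∑ k, ∑ a, g j a * g k (a + f j k) =
        ∑ j, ∑ k, ∑ a, G (u, j, k, a) + ∑ j, ∑ a, g j a ^ 2 := by
      rw [← sum_add_distrib]
      refine Fintype.sum_congr _ _ fun j => ?_
      rw [Fintype.sum_congr _ _ (h5 j), sum_add_distrib,
        sum_ite_eq univ j fun _ => ∑ a, g j a ^ 2, if_pos (mem_univ _)]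
    rw [h7, hg] at h6
    linarith
  have htot : ∑ t, G t = ∑ u, ∑ j, ∑ k, ∑ a, G (u, j, k, a) := by
    rw [Fintype.sum_prod_type]
    refine Fintype.sum_congr _ _ fun u => ?_
    rw [Fintype.sum_prod_type]
    refine Fintype.sum_congr _ _ fun j => ?_
    rw [Fintype.sum_prod_type]
  have hlow2 : -(Fintype.card (Vx K) * ((κ + 1) * ((qq K - 1) * (qq K * qq K)))) ≤ ∑ t, G t := by
    rw [htot]
    calc -((Fintype.card (Vx K) : ℝ) * ((κ + 1) * ((qq K - 1) * (qq K * qq K))))
        = ∑ _u : Vx K, -((κ + 1) * ((qq K - 1) * (qq K * qq K))) := by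
          rw [sum_const, card_univ, nsmul_eq_mul]
          ring
      _ ≤ _ := sum_le_sum fun u _ => hlow u
  have hV : (0 : ℝ) < Fintype.card (Vx K) := by exact_mod_cast Fintype.card_pos
  have hq1 : 0 < qq K - 1 := by linarith
  have hpos : 0 < (Fintype.card (Vx K) : ℝ) * ((qq K - 1) * (qq K * qq K)) :=
    mul_pos hV (mul_pos hq1 (mul_pos qq_pos qq_pos))
  have h8 : (Fintype.card (Vx K) : ℝ) * ((qq K - 1) * (qq K * qq K)) * (qq K - 2) ≤
      (Fintype.card (Vx K) : ℝ) * ((qq K - 1) * (qq K * qq K)) * (3 * (κ + 1)) := by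
    nlinarith
  have h9 := le_of_mul_le_mul_left h8 hpos
  linarith

end Pool.Agent.H61.FA
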