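import Mathlib

/-!
# Sums of a real additive character of a finite field of characteristic two
-/

set_option autoImplicit false

namespace Pool.Agent.H61.FA

open Finset

variable {K : Type} [Field K] [Fintype K]

/-- a nontrivial additive character with values `1, -1` -/
structure IsChi (χ : K → ℝ) : Prop where
  add : ∀ x y, χ (x + y) = χ x * χ y
  val : ∀ x, χ x = 1 ∨ χ x = -1
  sum : ∀ c, c ≠ 0 → ∑ x, χ (c * x) = 0

/-- the number of elements, as a real number -/
noncomputable def qq (K : Type) [Fintype K] : ℝ := (Fintype.card K : ℝ)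

theorem exists_chi [CharP K 2] : ∃ χ : K → ℝ, IsChi χ := by
  classical
  let _ : Algebra (ZMod 2) K := ZMod.algebra K 2
  obtain ⟨φ, hφ⟩ : ∃ φ : Module.Dual (ZMod 2) K, φ 1 ≠ 0 := by
    by_contra h
    push Not at h
    exact one_ne_zero ((Module.forall_dual_apply_eq_zero_iff (ZMod 2) (1 : K)).1 h)
  have hφ1 : φ 1 = 1 := by
    have h2 : ∀ x : ZMod 2, x ≠ 0 → x = 1 := by decide
    exact h2 _ hφ
  let s : ZMod 2 → ℝ := fun z => if z = 0 then 1 else -1
  have hs : ∀ x y : ZMod 2, s (x + y) = s x * s y := by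
    have h01 : ∀ z : ZMod 2, z = 0 ∨ z = 1 := by decide
    have h11 : (1 : ZMod 2) + 1 = 0 := by decide
    have h10 : (1 : ZMod 2) ≠ 0 := by decide
    intro x y
    rcases h01 x with rfl | rfl
    · rw [zero_add]
      simp only [s, if_true, one_mul]
    · rcases h01 y with rfl | rfl
      · rw [add_zero]
        simp only [s, if_true, mul_one]
      · rw [h11]
        simp only [s, if_true, if_neg h10]
        norm_num
  refine ⟨fun x => s (φ x), ?_, ?_, ?_⟩
  · intro x y
    rw [map_add, hs]
  · intro x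
    simp only [s]
    split_ifs
    · exact Or.inl rfl
    · exact Or.inr rfl
  · intro c hc
    have h1 : ∑ x, s (φ (c * (x + c⁻¹))) = ∑ x, s (φ (c * x)) :=
      Fintype.sum_equiv (Equiv.addRight c⁻¹) _ _ fun x => rfl
    have h2 : ∀ x, s (φ (c * (x + c⁻¹))) = -s (φ (c * x)) := by
      intro x
      rw [mul_add, mul_inv_cancel₀ hc, map_add, hs, hφ1]
      have : s 1 = -1 := by simp [s]
      rw [this]
      ring
    rw [Fintype.sum_congr _ _ h2, sum_neg_distrib] at h1
    linarith

variable {χ : K → ℝ}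

theorem IsChi.zero (h : IsChi χ) : χ 0 = 1 := by
  have h1 := h.add 0 0
  rw [add_zero] at h1
  rcases h.val 0 with h2 | h2
  · exact h2
  · rw [h2] at h1
    norm_num at h1

theorem IsChi.sq (h : IsChi χ) (x : K) : χ x * χ x = 1 := by
  rcases h.val x with h2 | h2 <;> rw [h2] <;> norm_num

theorem IsChi.le_one (h : IsChi χ) (x : K) : χ x ≤ 1 := by
  rcases h.val x with h2 | h2 <;> rw [h2] <;> norm_num

theorem IsChi.abs (h : IsChi χ) (x : K) : |χ x| = 1 := by
  rcases h.val x with h2 | h2 <;> rw [h2]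
  · norm_num
  · norm_num

theorem qq_pos : 0 < qq K := by
  unfold qq
  exact_mod_cast Fintype.card_pos

/-- orthogonality -/
theorem IsChi.orth (h : IsChi χ) (z : K) [Decidable (z = 0)] :
    ∑ c, χ (c * z) = if z = 0 then qq K else 0 := by
  split_ifs with hz
  · subst hz
    simp [h.zero, qq]
  · rw [← h.sum z hz]
    exact Fintype.sum_congr _ _ fun c => by rw [mul_comm]

/-- sums of additive functions with values `1, -1` -/
theorem add_sum {φ : K → ℝ} (hadd : ∀ x y, φ (x + y) = φ x * φ y) (x : K) :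
    φ x * ∑ k, φ k = ∑ k, φ k := by
  rw [mul_sum]
  exact Fintype.sum_equiv (Equiv.addLeft x) _ _ fun k => (hadd x k).symm

theorem add_sum_sq {φ : K → ℝ} (hadd : ∀ x y, φ (x + y) = φ x * φ y) :
    (∑ k, φ k) * ∑ k, φ k = qq K * ∑ k, φ k := by
  calc (∑ k, φ k) * ∑ k, φ k = ∑ x, φ x * ∑ k, φ k := by rw [sum_mul]
    _ = ∑ _x : K, ∑ k, φ k := Fintype.sum_congr _ _ fun x => add_sum hadd x
    _ = qq K * ∑ k, φ k := by
      rw [sum_const, card_univ, nsmul_eq_mul]
      rfl

theorem add_sum_nonneg {φ : K → ℝ} (hadd : ∀ x y, φ (x + y) = φ x * φ y) : 0 ≤ ∑ k, φ k := by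
  have h1 := add_sum_sq hadd
  have h2 := qq_pos (K := K)
  by_contra h3
  push Not at h3
  nlinarith [mul_self_nonneg (∑ k, φ k)]

/-- `T A = ∑ χ (A (j ^ 2 h + j h ^ 2))` -/
noncomputable def T (χ : K → ℝ) (A : K) : ℝ := ∑ h, ∑ j, χ (A * (j ^ 2 * h + j * h ^ 2))

section char2

variable [CharP K 2]

omit [Fintype K] in
theorem sq_add (x y : K) : (x + y) ^ 2 = x ^ 2 + y ^ 2 := by
  have : (2 : K) = 0 := CharP.cast_eq_zero K 2
  linear_combination (x * y) * this

omit [Fintype K] in
theorem add_self' (x : K) : x + x = 0 := by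
  have : (2 : K) = 0 := CharP.cast_eq_zero K 2
  linear_combination x * this

theorem inner_nonneg (h : IsChi χ) (A m : K) : 0 ≤ ∑ j, χ (A * (j ^ 2 * m + j * m ^ 2)) := by
  apply add_sum_nonneg
  intro x y
  rw [← h.add, sq_add]
  congr 1
  ring

/-- cubic sums -/
theorem cubic (h : IsChi χ) (A B C : K) :
    (∑ j, χ (A * j ^ 3 + B * j ^ 2 + C * j)) ^ 2 ≤ T χ A := by
  have h2 : (2 : K) = 0 := CharP.cast_eq_zero K 2
  have e : (∑ j, χ (A * j ^ 3 + B * j ^ 2 + C * j)) ^ 2 =
      ∑ m, χ (A * m ^ 3 + B * m ^ 2 + C * m) * ∑ j, χ (A * (j ^ 2 * m + j * m ^ 2)) := by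
    rw [_root_.sq, sum_mul_sum]
    calc ∑ j, ∑ k, χ (A * j ^ 3 + B * j ^ 2 + C * j) * χ (A * k ^ 3 + B * k ^ 2 + C * k)
        = ∑ j, ∑ m, χ (A * j ^ 3 + B * j ^ 2 + C * j) *
            χ (A * (j + m) ^ 3 + B * (j + m) ^ 2 + C * (j + m)) :=
          Fintype.sum_congr _ _ fun j => (Fintype.sum_equiv (Equiv.addLeft j) _ _ fun m => rfl).symm
      _ = ∑ j, ∑ m, χ (A * m ^ 3 + B * m ^ 2 + C * m) * χ (A * (j ^ 2 * m + j * m ^ 2)) := by
          refine Fintype.sum_congr _ _ fun j => Fintype.sum_congr _ _ fun m => ?_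
          rw [← h.add, ← h.add]
          congr 1
          linear_combination (A * j ^ 3 + B * j ^ 2 + C * j + A * (j ^ 2 * m + j * m ^ 2) +
            B * j * m) * h2
      _ = _ := by
          rw [sum_comm]
          exact Fintype.sum_congr _ _ fun m => (mul_sum _ _ _).symm
  rw [e]
  refine sum_le_sum fun m _ => ?_
  have h3 := inner_nonneg h A m
  have h4 := h.le_one (A * m ^ 3 + B * m ^ 2 + C * m)
  nlinarith

omit [CharP K 2] in
theorem T_zero (h : IsChi χ) : T χ 0 = qq K * qq K := by
  simp [T, h.zero, qq]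

theorem T_nonneg (h : IsChi χ) (A : K) : 0 ≤ T χ A := sum_nonneg fun m _ => inner_nonneg h A m

theorem count_le [DecidableEq K] :
    ((univ.filter fun p : K × K => p.2 ^ 2 * p.1 + p.2 * p.1 ^ 2 = 0).card : ℝ) ≤ 3 * qq K - 2 := by
  have h1 : (univ.filter fun p : K × K => p.2 ^ 2 * p.1 + p.2 * p.1 ^ 2 = 0) ⊆
      ((univ.image fun x : K => ((0 : K), x)) ∪
        ((univ.erase 0).image fun x : K => (x, (0 : K)))) ∪
          ((univ.erase 0).image fun x : K => (x, x)) := by
    rintro ⟨m, j⟩ hp
    have hp' : j ^ 2 * m + j * m ^ 2 = 0 := (mem_filter.1 hp).2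
    have h3 : m * (j * (j + m)) = 0 := by linear_combination hp'
    rw [mem_union, mem_union, mem_image, mem_image, mem_image]
    by_cases hm : m = 0
    · left
      left
      exact ⟨j, mem_univ _, by rw [hm]⟩
    · have hm' : m ∈ (univ : Finset K).erase 0 := mem_erase.2 ⟨hm, mem_univ _⟩
      rcases mul_eq_zero.1 ((mul_eq_zero.1 h3).resolve_left hm) with h4 | h4
      · left
        right
        exact ⟨m, hm', by rw [h4]⟩
      · right
        refine ⟨m, hm', ?_⟩
        have h5 : j = m := by
          have h6 := add_self' m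
          linear_combination h4 - h6
        rw [h5]
  have h2 := card_le_card h1
  have h3 := card_union_le ((univ.image fun x : K => ((0 : K), x)) ∪
        ((univ.erase 0).image fun x : K => (x, (0 : K))))
          ((univ.erase 0).image fun x : K => (x, x))
  have h4 := card_union_le (univ.image fun x : K => ((0 : K), x))
        ((univ.erase 0).image fun x : K => (x, (0 : K)))
  have h5 := card_image_le (s := (univ : Finset K)) (f := fun x : K => ((0 : K), x))
  have h6 := card_image_le (s := (univ.erase (0 : K))) (f := fun x : K => (x, (0 : K)))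
  have h7 := card_image_le (s := (univ.erase (0 : K))) (f := fun x : K => (x, x))
  rw [card_erase_of_mem (mem_univ _)] at h6 h7
  rw [card_univ] at h5 h6 h7
  have h8 : 1 ≤ Fintype.card K := Fintype.card_pos
  have h9 : (univ.filter fun p : K × K => p.2 ^ 2 * p.1 + p.2 * p.1 ^ 2 = 0).card + 2 ≤
      3 * Fintype.card K := by omega
  have h10 : ((univ.filter fun p : K × K => p.2 ^ 2 * p.1 + p.2 * p.1 ^ 2 = 0).card : ℝ) + 2 ≤
      3 * (Fintype.card K : ℝ) := by exact_mod_cast h9
  unfold qq
  linarith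

theorem sum_T_le [DecidableEq K] (h : IsChi χ) :
    ∑ A ∈ univ.erase 0, T χ A ≤ 2 * qq K * (qq K - 1) := by
  have h1 : ∑ A, T χ A = qq K *
      ((univ.filter fun p : K × K => p.2 ^ 2 * p.1 + p.2 * p.1 ^ 2 = 0).card : ℝ) := by
    unfold T
    rw [sum_comm]
    calc ∑ m, ∑ A, ∑ j, χ (A * (j ^ 2 * m + j * m ^ 2))
        = ∑ m, ∑ j, ∑ A, χ (A * (j ^ 2 * m + j * m ^ 2)) :=
          Fintype.sum_congr _ _ fun m => sum_comm
      _ = ∑ m, ∑ j, if j ^ 2 * m + j * m ^ 2 = 0 then qq K else 0 :=
          Fintype.sum_congr _ _ fun m => Fintype.sum_congr _ _ fun j => h.orth _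
      _ = ∑ p : K × K, if p.2 ^ 2 * p.1 + p.2 * p.1 ^ 2 = 0 then qq K else 0 := by
          rw [Fintype.sum_prod_type]
      _ = _ := by
          rw [← sum_filter, sum_const, nsmul_eq_mul, mul_comm]
  rw [← add_sum_erase _ _ (mem_univ (0 : K)), T_zero h] at h1
  have h2 := count_le (K := K)
  have h3 := qq_pos (K := K)
  nlinarith

/-- quadratic sums -/
theorem quad_card [DecidableEq K] (h : IsChi χ) {c : K} (hc : c ≠ 0) :
    ∑ u, |∑ j, χ (c * (u * j ^ 2 + u ^ 2 * j))| ≤ 4 * qq K := by
  classical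
  have hadd : ∀ u x y : K, χ (c * (u * (x + y) ^ 2 + u ^ 2 * (x + y))) =
      χ (c * (u * x ^ 2 + u ^ 2 * x)) * χ (c * (u * y ^ 2 + u ^ 2 * y)) := by
    intro u x y
    rw [← h.add, sq_add]
    congr 1
    ring
  have h0 : ∀ u : K, 0 ≤ ∑ j, χ (c * (u * j ^ 2 + u ^ 2 * j)) := fun u =>
    add_sum_nonneg (φ := fun j => χ (c * (u * j ^ 2 + u ^ 2 * j))) (hadd u)
  have hq : ∀ u : K, ∑ j, χ (c * (u * j ^ 2 + u ^ 2 * j)) ≤ qq K := by
    intro u
    calc ∑ j, χ (c * (u * j ^ 2 + u ^ 2 * j)) ≤ ∑ _j : K, (1 : ℝ) :=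
          sum_le_sum fun j _ => h.le_one _
      _ = qq K := by
          rw [sum_const, card_univ, nsmul_eq_mul, mul_one]
          rfl
  have hR : (univ.filter fun u : K => ∑ j, χ (c * (u * j ^ 2 + u ^ 2 * j)) ≠ 0).card ≤ 4 := by
    by_cases hex : ∃ u : K, u ≠ 0 ∧ ∑ j, χ (c * (u * j ^ 2 + u ^ 2 * j)) ≠ 0
    · obtain ⟨u, hu, hS⟩ := hex
      have hqp := qq_pos (K := K)
      -- values `0` or `q`
      have hval : ∀ a : K, (∑ j, χ (a * (u * j ^ 2 + u ^ 2 * j))) = 0 ∨
          (∑ j, χ (a * (u * j ^ 2 + u ^ 2 * j))) = qq K := by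
        intro a
        have h1 := add_sum_sq (φ := fun j => χ (a * (u * j ^ 2 + u ^ 2 * j))) (by
          intro x y
          rw [← h.add, sq_add]
          congr 1
          ring)
        by_cases h2 : (∑ j, χ (a * (u * j ^ 2 + u ^ 2 * j))) = 0
        · exact Or.inl h2
        · exact Or.inr (mul_right_cancel₀ h2 h1)
      have hnn : ∀ a : K, 0 ≤ ∑ j, χ (a * (u * j ^ 2 + u ^ 2 * j)) := by
        intro a
        rcases hval a with h1 | h1 <;> rw [h1]
        exact hqp.le
      have hsum : ∑ a, ∑ j, χ (a * (u * j ^ 2 + u ^ 2 * j)) = 2 * qq K := by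
        rw [sum_comm]
        calc ∑ j, ∑ a, χ (a * (u * j ^ 2 + u ^ 2 * j))
            = ∑ j, if u * j ^ 2 + u ^ 2 * j = 0 then qq K else 0 :=
              Fintype.sum_congr _ _ fun j => h.orth _
          _ = ((univ.filter fun j : K => u * j ^ 2 + u ^ 2 * j = 0).card : ℝ) * qq K := by
              rw [← sum_filter, sum_const, nsmul_eq_mul]
          _ = 2 * qq K := by
              have h2 : (univ.filter fun j : K => u * j ^ 2 + u ^ 2 * j = 0) = {0, u} := by
                ext j
                rw [mem_filter, mem_insert, mem_singleton]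
                constructor
                · rintro ⟨-, h3⟩
                  have h4 : u * (j * (j + u)) = 0 := by linear_combination h3
                  rcases mul_eq_zero.1 ((mul_eq_zero.1 h4).resolve_left hu) with h5 | h5
                  · exact Or.inl h5
                  · right
                    have h6 := add_self' u
                    linear_combination h5 - h6
                · rintro (rfl | rfl)
                  · exact ⟨mem_univ _, by ring⟩
                  · refine ⟨mem_univ _, ?_⟩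
                    have h2 : (2 : K) = 0 := CharP.cast_eq_zero K 2
                    linear_combination j ^ 3 * h2
              rw [h2, card_pair (Ne.symm hu)]
              norm_num
      have hS' : (∑ j, χ (c * (u * j ^ 2 + u ^ 2 * j))) = qq K := (hval c).resolve_left hS
      have hS0 : (∑ j, χ ((0 : K) * (u * j ^ 2 + u ^ 2 * j))) = qq K := by
        simp [h.zero, qq]
      have honly : ∀ a : K, (∑ j, χ (a * (u * j ^ 2 + u ^ 2 * j))) ≠ 0 → a = 0 ∨ a = c := by
        intro a ha
        by_contra hcon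
        push Not at hcon
        have h1 : ∑ b ∈ ({0, c, a} : Finset K), ∑ j, χ (b * (u * j ^ 2 + u ^ 2 * j)) ≤
            ∑ b, ∑ j, χ (b * (u * j ^ 2 + u ^ 2 * j)) :=
          sum_le_sum_of_subset_of_nonneg (subset_univ _) fun b _ _ => hnn b
        rw [hsum, sum_insert (by
            rw [mem_insert, mem_singleton]
            rintro (h2 | h2)
            · exact hc h2.symm
            · exact hcon.1 h2.symm),
          sum_insert (by
            rw [mem_singleton]
            exact fun h2 => hcon.2 h2.symm), sum_singleton, hS0, hS',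
          (hval a).resolve_left ha] at h1
        linarith
      -- the cube roots of unity
      have hinj : (univ.filter fun v : K => ∑ j, χ (c * (v * j ^ 2 + v ^ 2 * j)) ≠ 0) ⊆
          insert 0 ((Polynomial.nthRoots 3 (1 : K)).toFinset.image fun l => l * u) := by
        intro v hv
        rw [mem_insert, mem_image]
        by_cases hv0 : v = 0
        · exact Or.inl hv0
        · right
          refine ⟨v / u, ?_, div_mul_cancel₀ v hu⟩
          rw [Multiset.mem_toFinset, Polynomial.mem_nthRoots (by norm_num)]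
          have h1 : (∑ j, χ (c * (v * j ^ 2 + v ^ 2 * j))) =
              ∑ j, χ ((c * (v / u) ^ 3) * (u * j ^ 2 + u ^ 2 * j)) := by
            refine (Fintype.sum_equiv (Equiv.mulLeft₀ (v / u) (div_ne_zero hv0 hu)) _ _
              fun j => ?_).symm
            congr 1
            change c * (v / u) ^ 3 * (u * j ^ 2 + u ^ 2 * j) =
              c * (v * (v / u * j) ^ 2 + v ^ 2 * (v / u * j))
            field_simp
          have h2 := (mem_filter.1 hv).2
          rw [h1] at h2
          rcases honly _ h2 with h3 | h3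
          · exfalso
            exact (mul_ne_zero hc (pow_ne_zero 3 (div_ne_zero hv0 hu))) h3
          · exact mul_left_cancel₀ hc (h3.trans (mul_one c).symm)
      refine (card_le_card hinj).trans ((card_insert_le _ _).trans ?_)
      have h3 := card_image_le (s := (Polynomial.nthRoots 3 (1 : K)).toFinset)
        (f := fun l => l * u)
      have h4 := Multiset.toFinset_card_le (Polynomial.nthRoots 3 (1 : K))
      have h5 := Polynomial.card_nthRoots 3 (1 : K)
      omega
    · push Not at hex
      have h1 : (univ.filter fun u : K => ∑ j, χ (c * (u * j ^ 2 + u ^ 2 * j)) ≠ 0) ⊆ {0} := by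
        intro u hu
        rw [mem_singleton]
        by_contra hu0
        exact (mem_filter.1 hu).2 (hex u hu0)
      refine (card_le_card h1).trans ?_
      rw [card_singleton]
      norm_num
  calc ∑ u, |∑ j, χ (c * (u * j ^ 2 + u ^ 2 * j))|
      = ∑ u ∈ univ.filter (fun u : K => ∑ j, χ (c * (u * j ^ 2 + u ^ 2 * j)) ≠ 0),
          |∑ j, χ (c * (u * j ^ 2 + u ^ 2 * j))| := by
        rw [sum_filter_of_ne]
        intro u _ hu h1
        apply hu
        rw [h1, abs_zero]
    _ ≤ ∑ u ∈ univ.filter (fun u : K => ∑ j, χ (c * (u * j ^ 2 + u ^ 2 * j)) ≠ 0), qq K := by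
        refine sum_le_sum fun u _ => ?_
        rw [abs_of_nonneg (h0 u)]
        exact hq u
    _ ≤ 4 * qq K := by
        rw [sum_const, nsmul_eq_mul]
        exact mul_le_mul_of_nonneg_right (by exact_mod_cast hR) qq_pos.le

end char2

end Pool.Agent.H61.FA
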