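import Mathlib

/-!
# An algebraic graph without `H₀` (MP_eb1b1c_co): definitions and identities

`K` a commutative ring. The vertices are the pairs `(i, s)`, `i : K` the colour, `s : K ^ 5`. For a label `a : K ^ 2`
and `j ≠ i` the vertex `nb (i, s) j a = (j, s + w i a - w j (a + f i j))` is a neighbour of `(i, s)`.
-/

set_option autoImplicit false

namespace Pool.Agent.H61.FA

section ring

variable {K : Type} [CommRing K]

/-- the vertices -/
abbrev Vx (K : Type) : Type := K × (K × K × K × K × K)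

/-- the linear maps `w i : K ^ 2 → K ^ 5` -/
def w (i : K) (a : K × K) : K × K × K × K × K :=
  (i * a.1, i ^ 2 * a.1, i * a.2, i ^ 3 * a.2, i ^ 3 * a.1 + i ^ 2 * a.2)

/-- the voltages -/
def f (i j : K) : K × K := (i * j ^ 2 - i ^ 2 * j, i * j ^ 3 - i ^ 3 * j)

/-- the neighbour of colour `j` and label `a` -/
def nb (u : Vx K) (j : K) (a : K × K) : Vx K := (j, u.2 + w u.1 a - w j (a + f u.1 j))

/-- adjacency -/
def Adj (u v : Vx K) : Prop := u.1 ≠ v.1 ∧ ∃ a : K × K, v = nb u v.1 a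

theorem w_add (i : K) (a b : K × K) : w i (a + b) = w i a + w i b := by
  ext <;> simp [w] <;> ring

theorem w_sub (i : K) (a b : K × K) : w i (a - b) = w i a - w i b := by
  ext <;> simp [w] <;> ring

theorem w_zero (i : K) : w i 0 = 0 := by
  ext <;> simp [w]

theorem w_neg (i : K) (a : K × K) : w i (-a) = -w i a := by
  ext <;> simp [w]
  ring

theorem f_swap (i j : K) : f j i = -f i j := by
  ext <;> simp [f] <;> ring

theorem f_self (i : K) : f i i = 0 := by
  ext <;> simp [f] <;> ring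

theorem w_cyc (i j k : K) : w i (f j k) + w j (f k i) + w k (f i j) = 0 := by
  ext <;> simp [w, f] <;> ring

theorem nb_fst (u : Vx K) (j : K) (a : K × K) : (nb u j a).1 = j := rfl

theorem nb_back (u : Vx K) (j : K) (a : K × K) : nb (nb u j a) u.1 (a + f u.1 j) = u := by
  have h : a + f u.1 j + f j u.1 = a := by
    rw [f_swap u.1 j]
    abel
  refine Prod.ext rfl ?_
  change u.2 + w u.1 a - w j (a + f u.1 j) + w j (a + f u.1 j) - w u.1 (a + f u.1 j + f j u.1) = u.2
  rw [h]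
  abel

theorem nb_tri (u : Vx K) (j k : K) (a : K × K) :
    nb (nb u j a) k (a + f u.1 j + f u.1 k) = nb u k (a + f j k) := by
  refine Prod.ext rfl ?_
  change u.2 + w u.1 a - w j (a + f u.1 j) + w j (a + f u.1 j + f u.1 k) -
    w k (a + f u.1 j + f u.1 k + f j k) = u.2 + w u.1 (a + f j k) - w k (a + f j k + f u.1 k)
  have h := w_cyc u.1 j k
  rw [f_swap u.1 k, w_neg] at h
  simp only [w_add]
  have h2 : w k (f u.1 j) = w j (f u.1 k) - w u.1 (f j k) := by
    rw [← sub_eq_zero, ← h]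
    abel
  rw [h2]
  abel

theorem Adj.symm {u v : Vx K} (h : Adj u v) : Adj v u := by
  obtain ⟨h1, a, h2⟩ := h
  refine ⟨h1.symm, a + f u.1 v.1, ?_⟩
  have h3 := nb_back u v.1 a
  rw [← h2] at h3
  exact h3.symm

theorem adj_nb (u : Vx K) (j : K) (a : K × K) (h : u.1 ≠ j) : Adj u (nb u j a) := ⟨h, a, rfl⟩

end ring

section dom

variable {K : Type} [CommRing K] [IsDomain K]

/-- three vectors on which `1, x, x ^ 2` vanish -/
theorem vand {a b c p q r : K} (hab : a ≠ b) (hac : a ≠ c) (hbc : b ≠ c) (h0 : p + q + r = 0)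
    (h1 : a * p + b * q + c * r = 0) (h2 : a ^ 2 * p + b ^ 2 * q + c ^ 2 * r = 0) :
    p = 0 ∧ q = 0 ∧ r = 0 := by
  have hp : (a - b) * (a - c) * p = 0 := by
    linear_combination h2 - (b + c) * h1 + b * c * h0
  have hq : (b - a) * (b - c) * q = 0 := by
    linear_combination h2 - (a + c) * h1 + a * c * h0
  have hr : (c - a) * (c - b) * r = 0 := by
    linear_combination h2 - (a + b) * h1 + a * b * h0
  refine ⟨?_, ?_, ?_⟩
  · exact (mul_eq_zero.1 hp).resolve_left (mul_ne_zero (sub_ne_zero.2 hab) (sub_ne_zero.2 hac))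
  · exact (mul_eq_zero.1 hq).resolve_left
      (mul_ne_zero (sub_ne_zero.2 hab.symm) (sub_ne_zero.2 hbc))
  · exact (mul_eq_zero.1 hr).resolve_left
      (mul_ne_zero (sub_ne_zero.2 hac.symm) (sub_ne_zero.2 hbc.symm))

/-- independence -/
theorem indep {a b c : K} (hab : a ≠ b) (hac : a ≠ c) (hbc : b ≠ c) {p q r : K × K}
    (h0 : p + q + r = 0) (h : w a p + w b q + w c r = 0) : p = 0 ∧ q = 0 ∧ r = 0 := by
  obtain ⟨p1, p2⟩ := p
  obtain ⟨q1, q2⟩ := q
  obtain ⟨r1, r2⟩ := r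
  simp only [w, Prod.mk_add_mk, Prod.mk_eq_zero] at h h0
  obtain ⟨e1, e2⟩ := h0
  obtain ⟨e3, e4, e5, e6, e7⟩ := h
  obtain ⟨hp, hq, hr⟩ := vand hab hac hbc e1 e3 e4
  subst hp hq hr
  have e8 : a ^ 2 * p2 + b ^ 2 * q2 + c ^ 2 * r2 = 0 := by
    linear_combination e7
  obtain ⟨hp, hq, hr⟩ := vand hab hac hbc e2 e5 e8
  subst hp hq hr
  exact ⟨rfl, rfl, rfl⟩

theorem indep2 {a b : K} (hab : a ≠ b) {p : K × K} (h : w a p - w b p = 0) : p = 0 := by
  obtain ⟨p1, p2⟩ := p
  simp only [w, Prod.mk_sub_mk, Prod.mk_eq_zero] at h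
  obtain ⟨e3, e4, e5, e6, e7⟩ := h
  have h1 : (a - b) * p1 = 0 := by linear_combination e3
  have h2 : (a - b) * p2 = 0 := by linear_combination e5
  have h3 := (mul_eq_zero.1 h1).resolve_left (sub_ne_zero.2 hab)
  have h4 := (mul_eq_zero.1 h2).resolve_left (sub_ne_zero.2 hab)
  rw [h3, h4]
  rfl

/-- the relation between four colours -/
theorem four {a b c d : K} (hca : c ≠ a) (hcb : c ≠ b) (hcd : c ≠ d) {v p q r : K × K} (h0 : v + p + q + r = 0)
    (h : w c v + w a p + w b q + w d r = 0) : v.2 = (a + b + d) * v.1 := by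
  obtain ⟨v1, v2⟩ := v
  obtain ⟨p1, p2⟩ := p
  obtain ⟨q1, q2⟩ := q
  obtain ⟨r1, r2⟩ := r
  simp only [w, Prod.mk_add_mk, Prod.mk_eq_zero] at h h0
  obtain ⟨e1, e2⟩ := h0
  obtain ⟨e3, e4, e5, e6, e7⟩ := h
  have hk : ((c - a) * (c - b) * (c - d)) * (v2 - (a + b + d) * v1) = 0 := by
    linear_combination (-(a + b + d)) * e7 + (a + b + d) ^ 2 * e4 -
      (a + b + d) * (a * b + b * d + d * a) * e3 + (a + b + d) * (a * b * d) * e1 + e6 +
      (a * b + b * d + d * a) * e5 - (a * b * d) * e2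
  have h1 := (mul_eq_zero.1 hk).resolve_left (mul_ne_zero (mul_ne_zero (sub_ne_zero.2 hca)
    (sub_ne_zero.2 hcb)) (sub_ne_zero.2 hcd))
  exact sub_eq_zero.1 h1

theorem nb_inj {u : Vx K} {j : K} {a b : K × K} (hj : u.1 ≠ j) (h : nb u j a = nb u j b) : a = b := by
  have h1 := congrArg Prod.snd h
  change u.2 + w u.1 a - w j (a + f u.1 j) = u.2 + w u.1 b - w j (b + f u.1 j) at h1
  have h2 : w u.1 (a - b) - w j (a - b) = 0 := by
    rw [w_sub, w_sub]
    rw [w_add, w_add] at h1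
    rw [← sub_eq_zero] at h1
    rw [← h1]
    abel
  exact sub_eq_zero.1 (indep2 hj h2)

/-- the triangle rule -/
theorem rule {u : Vx K} {j k : K} {a b : K × K} (hj : u.1 ≠ j) (hk : u.1 ≠ k)
    (h : Adj (nb u j a) (nb u k b)) : b = a + f j k := by
  obtain ⟨hjk, c, hc⟩ := h
  change j ≠ k at hjk
  have h1 := congrArg Prod.snd hc
  change u.2 + w u.1 b - w k (b + f u.1 k) = u.2 + w u.1 a - w j (a + f u.1 j) + w j c -
    w k (c + f j k) at h1
  have h2 := w_cyc u.1 j k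
  have h3 : w u.1 (b - a - f j k) + w j (a + f u.1 j - c - f k u.1) +
      w k (c + f j k - b - f u.1 k - f u.1 j) = 0 := by
    simp only [w_add, w_sub] at h1 ⊢
    rw [← sub_eq_zero] at h1
    rw [f_swap u.1 k] at h2 ⊢
    rw [w_neg] at h2 ⊢
    have h4 := congrArg₂ (fun x y => x - y) h1 h2
    simp only [sub_zero] at h4
    rw [← h4]
    abel
  have h4 : (b - a - f j k) + (a + f u.1 j - c - f k u.1) +
      (c + f j k - b - f u.1 k - f u.1 j) = 0 := by
    rw [f_swap u.1 k]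
    abel
  have h5 := (indep hj hk hjk h4 h3).1
  rw [sub_sub, sub_eq_zero] at h5
  exact h5

theorem adj_iff {u : Vx K} {j k : K} {a b : K × K} (hj : u.1 ≠ j) (hk : u.1 ≠ k) :
    Adj (nb u j a) (nb u k b) ↔ j ≠ k ∧ b = a + f j k := by
  constructor
  · intro h
    exact ⟨h.1, rule hj hk h⟩
  · rintro ⟨h1, rfl⟩
    rw [← nb_tri]
    exact adj_nb _ _ _ h1

end dom

end Pool.Agent.H61.FA
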