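import Pool.Agent.H61.FA.Arrow

/-!
# The algebraic graph: no `H₀`, and `256` elements suffice
-/

set_option autoImplicit false

namespace Pool.Agent.H61.FA

open Finset

section free

variable {K : Type} [CommRing K] [IsDomain K]

/-- no copy of `K₅` minus the edges `01`, `23`, `34` -/
theorem noH0 (f : Fin 5 → Vx K) (hf : Function.Injective f)
    (h : ∀ i j : Fin 5, i ≠ j → ¬ ((i = 0 ∧ j = 1) ∨ (i = 1 ∧ j = 0) ∨ (i = 2 ∧ j = 3) ∨
      (i = 3 ∧ j = 2) ∨ (i = 3 ∧ j = 4) ∨ (i = 4 ∧ j = 3)) → Adj (f i) (f j)) : False := by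
  have h1 : f 0 ≠ f 1 := fun h => absurd (hf h) (by decide)
  have h2 := codegree (u := f 0) (v := f 1) (x := f 2) (y := f 4) (z := f 3) h1
    (h 2 0 (by decide) (by decide)) (h 2 1 (by decide) (by decide))
    (h 4 0 (by decide) (by decide)) (h 4 1 (by decide) (by decide))
    (h 2 4 (by decide) (by decide)) (h 0 3 (by decide) (by decide))
    (h 1 3 (by decide) (by decide))
  rcases h2 with h3 | h3
  · exact absurd (hf h3) (by decide)
  · exact absurd (hf h3) (by decide)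

end free

variable {K : Type} [Field K] [Fintype K] [CharP K 2]

theorem arrows (hq : 256 ≤ Fintype.card K) (c : Vx K → Vx K → Bool)
    (hc : ∀ x y : Vx K, Adj x y → c x y = c y x) :
    ∃ x y z : Vx K, Adj x y ∧ Adj y z ∧ Adj x z ∧ c x y = c y z ∧ c y z = c x z := by
  obtain ⟨χ, h⟩ := exists_chi (K := K)
  have hq' : (256 : ℝ) ≤ qq K := by
    unfold qq
    exact_mod_cast hq
  obtain ⟨y, hy⟩ : ∃ y, y = Real.sqrt (2 * qq K) := ⟨_, rfl⟩
  have hy2 : y ^ 2 = 2 * qq K := by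
    rw [hy]
    exact Real.sq_sqrt (by linarith)
  have hy0 : 0 ≤ y := by
    rw [hy]
    exact Real.sqrt_nonneg _
  have hy22 : 22 ≤ y := by nlinarith
  have hq2 : qq K = y ^ 2 / 2 := by linarith
  have hq1 : 0 ≤ qq K - 1 := by linarith
  have hpoly : 0 ≤ y ^ 4 - 18 * y ^ 3 - 42 * y ^ 2 + 36 * y + 144 := by
    have e1 : y ^ 4 - 18 * y ^ 3 - 42 * y ^ 2 + 36 * y + 144 =
        y ^ 2 * ((y - 22) * (y + 4) + 46) + 36 * y + 144 := by ring
    rw [e1]
    have e2 : 0 ≤ (y - 22) * (y + 4) := mul_nonneg (by linarith) (by linarith)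
    have e3 : 0 ≤ y ^ 2 * ((y - 22) * (y + 4) + 46) :=
      mul_nonneg (sq_nonneg _) (by linarith)
    linarith
  refine arrows_aux h (σ := (qq K - 1) * y) (κ := (qq K - 6) / 3) (mul_nonneg hq1 hy0) ?_ ?_ ?_
    ?_ ?_ c hc
  · rw [mul_pow, hy2]
    exact le_of_eq (by ring)
  · nlinarith
  · linarith
  · rw [hq2]
    nlinarith
  · linarith

end Pool.Agent.H61.FA
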