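import Pool.Agent.H61.FA.Mat

/-!
# The lower bound for the quadratic form of a link
-/

set_option autoImplicit false

namespace Pool.Agent.H61.FA

open Finset

variable {K : Type} [Field K] [Fintype K] [CharP K 2] {χ : K → ℝ}

theorem link (h : IsChi χ) {σ κ : ℝ} (hσ0 : 0 ≤ σ) (hσ : 2 * qq K * (qq K - 1) ^ 2 ≤ σ ^ 2)
    (h4 : 4 * qq K ≤ qq K + σ) (hκ : 0 ≤ κ) (hκσ : qq K + σ ≤ κ ^ 2) (g : K → K × K → ℝ) :
    -(κ * ∑ j, ∑ a, g j a ^ 2) ≤ ∑ j, ∑ k, ∑ a, g j a * g k (a + f j k) := by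
  have hQ : 0 < qq K * qq K := mul_pos qq_pos qq_pos
  have h1 : ∑ c, ∑ j, ∑ k, χ (dot c (f j k)) * (tr χ (g j) c * tr χ (g k) c) =
      qq K * qq K * ∑ j, ∑ k, ∑ a, g j a * g k (a + f j k) := by
    rw [sum_comm, mul_sum]
    refine Fintype.sum_congr _ _ fun j => ?_
    rw [sum_comm, mul_sum]
    exact Fintype.sum_congr _ _ fun k => conv h _ _ _
  have h2 : ∑ c, ∑ j, tr χ (g j) c ^ 2 = qq K * qq K * ∑ j, ∑ a, g j a ^ 2 := by
    rw [sum_comm, mul_sum]
    refine Fintype.sum_congr _ _ fun j => ?_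
    have h3 := conv h (g j) (g j) 0
    rw [Fintype.sum_congr _ (fun c => tr χ (g j) c ^ 2) fun c => by
      rw [dot_zero, h.zero]
      ring] at h3
    rw [h3]
    congr 1
    refine Fintype.sum_congr _ _ fun a => ?_
    rw [add_zero]
    ring
  have h3 : ∀ c : K × K, -(κ * ∑ j, tr χ (g j) c ^ 2) ≤
      ∑ j, ∑ k, χ (dot c (f j k)) * (tr χ (g j) c * tr χ (g k) c) := by
    intro c
    by_cases hc : c = 0
    · have e : ∑ j, ∑ k, χ (dot c (f j k)) * (tr χ (g j) c * tr χ (g k) c) =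
          (∑ j, tr χ (g j) c) ^ 2 := by
        rw [sq, sum_mul_sum]
        refine Fintype.sum_congr _ _ fun j => Fintype.sum_congr _ _ fun k => ?_
        have h5 : dot c (f j k) = 0 := by
          rw [hc]
          simp [dot]
        rw [h5, h.zero, one_mul]
      rw [e]
      have h5 : 0 ≤ κ * ∑ j, tr χ (g j) c ^ 2 :=
        mul_nonneg hκ (sum_nonneg fun j _ => sq_nonneg _)
      have h6 := sq_nonneg (∑ j, tr χ (g j) c)
      linarith
    · exact form_ge (fun j k => χ (dot c (f j k))) hκ hκσ (fun k => rows h hc hσ0 hσ h4 k)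
        fun j => tr χ (g j) c
  have h5 : -(κ * ∑ c, ∑ j, tr χ (g j) c ^ 2) ≤
      ∑ c, ∑ j, ∑ k, χ (dot c (f j k)) * (tr χ (g j) c * tr χ (g k) c) := by
    rw [mul_sum, ← sum_neg_distrib]
    exact sum_le_sum fun c _ => h3 c
  rw [h1, h2] at h5
  have h6 : (qq K * qq K) * (-(κ * ∑ j, ∑ a, g j a ^ 2)) ≤
      (qq K * qq K) * ∑ j, ∑ k, ∑ a, g j a * g k (a + f j k) := by
    refine le_trans (le_of_eq ?_) h5
    ring
  exact le_of_mul_le_mul_left h6 hQ

end Pool.Agent.H61.FA
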