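import Pool.Agent.H61.FA.Chi
import Pool.Agent.H61.FA.Def

/-!
# The quadratic form of a link
-/

set_option autoImplicit false

namespace Pool.Agent.H61.FA

open Finset

/-- a lower bound for a real quadratic form by the row sums of the square of its matrix -/
theorem form_ge {ι : Type} [Fintype ι] (M : ι → ι → ℝ) {ρ κ : ℝ} (hκ : 0 ≤ κ) (hκρ : ρ ≤ κ ^ 2)
    (hρ : ∀ k, ∑ l, |∑ j, M j k * M j l| ≤ ρ) (x : ι → ℝ) :
    -(κ * ∑ j, x j ^ 2) ≤ ∑ j, ∑ k, M j k * (x j * x k) := by
  have hx0 : 0 ≤ ∑ j, x j ^ 2 := sum_nonneg fun j _ => sq_nonneg _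
  have h1 : ∑ j, (∑ k, M j k * x k) ^ 2 ≤ ρ * ∑ j, x j ^ 2 := by
    calc ∑ j, (∑ k, M j k * x k) ^ 2
        = ∑ j, ∑ k, ∑ l, (M j k * M j l) * (x k * x l) := by
          refine Fintype.sum_congr _ _ fun j => ?_
          rw [sq, sum_mul_sum]
          refine Fintype.sum_congr _ _ fun k => Fintype.sum_congr _ _ fun l => ?_
          ring
      _ = ∑ k, ∑ l, (∑ j, M j k * M j l) * (x k * x l) := by
          rw [sum_comm]
          refine Fintype.sum_congr _ _ fun k => ?_
          rw [sum_comm]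
          exact Fintype.sum_congr _ _ fun l => (sum_mul _ _ _).symm
      _ ≤ ∑ k, ∑ l, (|∑ j, M j k * M j l| * x k ^ 2 / 2 + |∑ j, M j k * M j l| * x l ^ 2 / 2) := by
          refine sum_le_sum fun k _ => sum_le_sum fun l _ => ?_
          have h2 : |x k * x l| ≤ (x k ^ 2 + x l ^ 2) / 2 := by
            rw [abs_le]
            constructor <;> nlinarith [sq_nonneg (x k + x l), sq_nonneg (x k - x l)]
          calc (∑ j, M j k * M j l) * (x k * x l) ≤ |(∑ j, M j k * M j l) * (x k * x l)| :=
                le_abs_self _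
            _ = |∑ j, M j k * M j l| * |x k * x l| := abs_mul _ _
            _ ≤ |∑ j, M j k * M j l| * ((x k ^ 2 + x l ^ 2) / 2) :=
                mul_le_mul_of_nonneg_left h2 (abs_nonneg _)
            _ = _ := by ring
      _ = ∑ k, ∑ l, |∑ j, M j k * M j l| * x k ^ 2 / 2 +
          ∑ k, ∑ l, |∑ j, M j k * M j l| * x l ^ 2 / 2 := by
          rw [← sum_add_distrib]
          exact Fintype.sum_congr _ _ fun k => sum_add_distrib
      _ = (∑ k, (∑ l, |∑ j, M j k * M j l|) * x k ^ 2) / 2 +
          (∑ k, (∑ l, |∑ j, M j k * M j l|) * x k ^ 2) / 2 := by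
          have e1 : ∑ k, ∑ l, |∑ j, M j k * M j l| * x k ^ 2 / 2 =
              (∑ k, (∑ l, |∑ j, M j k * M j l|) * x k ^ 2) / 2 := by
            rw [sum_div]
            refine Fintype.sum_congr _ _ fun k => ?_
            rw [sum_mul, sum_div]
          have e2 : ∑ k, ∑ l, |∑ j, M j k * M j l| * x l ^ 2 / 2 =
              (∑ k, (∑ l, |∑ j, M j k * M j l|) * x k ^ 2) / 2 := by
            rw [sum_comm, ← e1]
            refine Fintype.sum_congr _ _ fun l => Fintype.sum_congr _ _ fun k => ?_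
            have e3 : ∑ j, M j k * M j l = ∑ j, M j l * M j k :=
              Fintype.sum_congr _ _ fun j => mul_comm _ _
            rw [e3]
          rw [e1, e2]
      _ ≤ ρ * ∑ j, x j ^ 2 := by
          have h3 : ∑ k, (∑ l, |∑ j, M j k * M j l|) * x k ^ 2 ≤ ρ * ∑ j, x j ^ 2 := by
            rw [mul_sum]
            exact sum_le_sum fun k _ => mul_le_mul_of_nonneg_right (hρ k) (sq_nonneg _)
          linarith
  have h2 : ∑ j, ∑ k, M j k * (x j * x k) = ∑ j, x j * ∑ k, M j k * x k := by
    refine Fintype.sum_congr _ _ fun j => ?_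
    rw [mul_sum]
    exact Fintype.sum_congr _ _ fun k => by ring
  have h3 := sum_mul_sq_le_sq_mul_sq univ x fun j => ∑ k, M j k * x k
  have h4 : (∑ j, x j * ∑ k, M j k * x k) ^ 2 ≤ (κ * ∑ j, x j ^ 2) ^ 2 := by
    calc (∑ j, x j * ∑ k, M j k * x k) ^ 2
        ≤ (∑ j, x j ^ 2) * ∑ j, (∑ k, M j k * x k) ^ 2 := h3
      _ ≤ (∑ j, x j ^ 2) * (ρ * ∑ j, x j ^ 2) := mul_le_mul_of_nonneg_left h1 hx0
      _ ≤ (∑ j, x j ^ 2) * (κ ^ 2 * ∑ j, x j ^ 2) :=
          mul_le_mul_of_nonneg_left (mul_le_mul_of_nonneg_right hκρ hx0) hx0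
      _ = (κ * ∑ j, x j ^ 2) ^ 2 := by ring
  rw [h2]
  exact neg_le_of_abs_le (abs_le_of_sq_le_sq h4 (mul_nonneg hκ hx0))

variable {K : Type} [Field K] [Fintype K]

/-- the pairing on `K ^ 2` -/
def dot (c z : K × K) : K := c.1 * z.1 + c.2 * z.2

omit [Fintype K] in
theorem dot_add (c y z : K × K) : dot c (y + z) = dot c y + dot c z := by
  simp only [dot, Prod.fst_add, Prod.snd_add]
  ring

omit [Fintype K] in
theorem dot_zero (c : K × K) : dot c 0 = 0 := by
  simp [dot]

variable {χ : K → ℝ}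

theorem orth2 [DecidableEq K] (h : IsChi χ) (z : K × K) :
    ∑ c, χ (dot c z) = if z = 0 then qq K * qq K else 0 := by
  have h1 : ∑ c, χ (dot c z) = (∑ c, χ (c * z.1)) * ∑ c, χ (c * z.2) := by
    rw [sum_mul_sum, Fintype.sum_prod_type]
    exact Fintype.sum_congr _ _ fun c => Fintype.sum_congr _ _ fun d => h.add _ _
  rw [h1, h.orth, h.orth]
  obtain ⟨z1, z2⟩ := z
  by_cases h2 : z1 = 0
  · by_cases h3 : z2 = 0
    · simp [h2, h3]
    · simp [h2, h3]
  · simp [h2]

/-- the transform -/
noncomputable def tr (χ : K → ℝ) (g : K × K → ℝ) (c : K × K) : ℝ := ∑ a, g a * χ (dot c a)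

variable [CharP K 2]

theorem conv (h : IsChi χ) (g g' : K × K → ℝ) (d : K × K) :
    ∑ c, χ (dot c d) * (tr χ g c * tr χ g' c) = qq K * qq K * ∑ a, g a * g' (a + d) := by
  classical
  have h2 : (2 : K) = 0 := CharP.cast_eq_zero K 2
  calc ∑ c, χ (dot c d) * (tr χ g c * tr χ g' c)
      = ∑ c, ∑ a, ∑ b, (g a * g' b) * χ (dot c (d + a + b)) := by
        refine Fintype.sum_congr _ _ fun c => ?_
        rw [tr, tr, sum_mul_sum, mul_sum]
        refine Fintype.sum_congr _ _ fun a => ?_
        rw [mul_sum]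
        refine Fintype.sum_congr _ _ fun b => ?_
        rw [dot_add, dot_add, h.add, h.add]
        ring
    _ = ∑ a, ∑ b, (g a * g' b) * ∑ c, χ (dot c (d + a + b)) := by
        rw [sum_comm]
        refine Fintype.sum_congr _ _ fun a => ?_
        rw [sum_comm]
        exact Fintype.sum_congr _ _ fun b => (mul_sum _ _ _).symm
    _ = ∑ a, ∑ b, if b = a + d then qq K * qq K * (g a * g' (a + d)) else 0 := by
        refine Fintype.sum_congr _ _ fun a => Fintype.sum_congr _ _ fun b => ?_
        rw [orth2 h]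
        by_cases hb : b = a + d
        · have h3 : d + a + b = 0 := by
            rw [hb]
            obtain ⟨a1, a2⟩ := a
            obtain ⟨d1, d2⟩ := d
            simp only [Prod.mk_add_mk, Prod.mk_eq_zero]
            exact ⟨by linear_combination (d1 + a1) * h2, by linear_combination (d2 + a2) * h2⟩
          rw [if_pos h3, if_pos hb, hb]
          ring
        · have h3 : d + a + b ≠ 0 := by
            intro h3
            apply hb
            obtain ⟨a1, a2⟩ := a
            obtain ⟨d1, d2⟩ := d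
            obtain ⟨b1, b2⟩ := b
            simp only [Prod.mk_add_mk, Prod.mk_eq_zero] at h3
            simp only [Prod.mk_add_mk, Prod.mk.injEq]
            exact ⟨by linear_combination h3.1 - (a1 + d1) * h2,
              by linear_combination h3.2 - (a2 + d2) * h2⟩
          rw [if_neg h3, if_neg hb, mul_zero]
    _ = ∑ a, qq K * qq K * (g a * g' (a + d)) := by
        refine Fintype.sum_congr _ _ fun a => ?_
        rw [sum_ite_eq' univ (a + d) fun _ => qq K * qq K * (g a * g' (a + d)),
          if_pos (mem_univ _)]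
    _ = _ := (mul_sum _ _ _).symm

/-- the row sums -/
theorem rows (h : IsChi χ) {c : K × K} (hc : c ≠ 0) {σ : ℝ} (hσ0 : 0 ≤ σ)
    (hσ : 2 * qq K * (qq K - 1) ^ 2 ≤ σ ^ 2) (h4 : 4 * qq K ≤ qq K + σ) (k : K) :
    ∑ l, |∑ j, χ (dot c (f j k)) * χ (dot c (f j l))| ≤ qq K + σ := by
  classical
  have h2 : (2 : K) = 0 := CharP.cast_eq_zero K 2
  have hP : ∀ l, ∑ j, χ (dot c (f j k)) * χ (dot c (f j l)) =
      ∑ j, χ ((c.2 * (k + l)) * j ^ 3 + (c.1 * (k + l)) * j ^ 2 +
        (c.1 * (k + l) ^ 2 + c.2 * (k ^ 3 + l ^ 3)) * j) := by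
    intro l
    refine Fintype.sum_congr _ _ fun j => ?_
    rw [← h.add]
    congr 1
    simp only [dot, f]
    linear_combination (-c.1 * j ^ 2 * k - c.1 * j ^ 2 * l - c.2 * j ^ 3 * k - c.2 * j ^ 3 * l -
      c.1 * j * k * l) * h2
  by_cases hc2 : c.2 = 0
  · have hc1 : c.1 ≠ 0 := by
      intro hc1
      exact hc (Prod.ext hc1 hc2)
    have h5 := quad_card h hc1
    refine le_trans (le_of_eq (Fintype.sum_equiv (Equiv.addLeft k) _ _ fun l => ?_))
      (h5.trans h4)
    rw [hP l]
    congr 1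
    refine Fintype.sum_congr _ _ fun j => ?_
    congr 1
    change _ = c.1 * ((k + l) * j ^ 2 + (k + l) ^ 2 * j)
    rw [hc2]
    ring
  · rw [← add_sum_erase _ _ (mem_univ k)]
    have e1 : |∑ j, χ (dot c (f j k)) * χ (dot c (f j k))| = qq K := by
      have e2 : ∑ j, χ (dot c (f j k)) * χ (dot c (f j k)) = qq K := by
        rw [Fintype.sum_congr _ (fun _ => (1 : ℝ)) fun j => h.sq _, sum_const, card_univ,
          nsmul_eq_mul, mul_one]
        rfl
      rw [e2, abs_of_pos qq_pos]
    rw [e1]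
    refine add_le_add le_rfl ?_
    have h5 : (∑ l ∈ univ.erase k, |∑ j, χ (dot c (f j k)) * χ (dot c (f j l))|) ^ 2 ≤ σ ^ 2 := by
      refine (sq_sum_le_card_mul_sum_sq).trans (le_trans ?_ hσ)
      have h6 : ∑ l ∈ univ.erase k, |∑ j, χ (dot c (f j k)) * χ (dot c (f j l))| ^ 2 ≤
          ∑ A ∈ univ.erase 0, T χ A := by
        calc ∑ l ∈ univ.erase k, |∑ j, χ (dot c (f j k)) * χ (dot c (f j l))| ^ 2
            ≤ ∑ l ∈ univ.erase k, T χ (c.2 * (k + l)) := by
              refine sum_le_sum fun l _ => ?_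
              rw [sq_abs, hP l]
              exact cubic h _ _ _
          _ = ∑ A ∈ univ.erase 0, T χ A := by
              refine sum_bij (fun l _ => c.2 * (k + l)) ?_ ?_ ?_ fun _ _ => rfl
              · intro l hl
                refine mem_erase.2 ⟨mul_ne_zero hc2 fun h7 => (mem_erase.1 hl).1 ?_, mem_univ _⟩
                have h8 := add_self' l
                linear_combination h8 - h7
              · intro l _ l' _ h7
                exact add_left_cancel (mul_left_cancel₀ hc2 h7)
              · intro A hA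
                refine ⟨A / c.2 - k, mem_erase.2 ⟨fun h7 => (mem_erase.1 hA).1 ?_, mem_univ _⟩, ?_⟩
                · have h8 := add_self' k
                  have h9 : A / c.2 = 0 := by linear_combination h7 + h8
                  rcases div_eq_zero_iff.1 h9 with h10 | h10
                  · exact h10
                  · exact absurd h10 hc2
                · have h9 : k + (A / c.2 - k) = A / c.2 := by ring
                  rw [h9, mul_div_cancel₀ A hc2]
      have h7 := sum_T_le h
      have h8 : ((univ.erase k).card : ℝ) = qq K - 1 := by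
        rw [card_erase_of_mem (mem_univ k), card_univ, Nat.cast_sub Fintype.card_pos]
        simp [qq]
      have h9 : 0 ≤ qq K - 1 := by
        rw [← h8]
        exact Nat.cast_nonneg _
      rw [h8]
      calc (qq K - 1) * ∑ l ∈ univ.erase k, |∑ j, χ (dot c (f j k)) * χ (dot c (f j l))| ^ 2
          ≤ (qq K - 1) * (2 * qq K * (qq K - 1)) := mul_le_mul_of_nonneg_left (h6.trans h7) h9
        _ = 2 * qq K * (qq K - 1) ^ 2 := by ring
    exact (le_abs_self _).trans (abs_le_of_sq_le_sq h5 hσ0)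

end Pool.Agent.H61.FA
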